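import Pool.Agent.MFS.Hedge
import Pool.Agent.MFS.All

/-! For every `γ > 0` there are a planar graph and a mostly free vertex set none of whose free subsets (nor any
subset that is collinear in some drawing) has `γ |S|` vertices. -/

set_option autoImplicit false

namespace Pool.Agent.Results.MP_6c0025_co.NoLinearFreeSubset

/-- `f` is a straight-line crossing-free drawing of `G`: vertices at distinct points, edges are open segments,
distinct edges are disjoint, no vertex lies on an edge -/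
def IsDrawing {V : Type} (G : SimpleGraph V) (f : V → ℝ × ℝ) : Prop :=
  Function.Injective f ∧
  (∀ u v w : V, G.Adj u v → f w ∉ openSegment ℝ (f u) (f v)) ∧
  ∀ u v x y : V, G.Adj u v → G.Adj x y → s(u, v) ≠ s(x, y) →
    Disjoint (openSegment ℝ (f u) (f v)) (openSegment ℝ (f x) (f y))

/-- `S` is free in `G` -/
def IsFree {V : Type} (G : SimpleGraph V) (S : Finset V) : Prop :=
  ∀ P : Finset (ℝ × ℝ), P.card = S.card → ∃ f : V → ℝ × ℝ, IsDrawing G f ∧ f '' S = P

/-- `S` is mostly free in `G` -/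
def IsMostlyFree {V : Type} (G : SimpleGraph V) (S : Finset V) : Prop :=
  ∀ P : Finset (ℝ × ℝ), P.card = S.card →
    (∀ a ∈ P, ∀ b ∈ P, ∀ c ∈ P, a ≠ b → a ≠ c → b ≠ c → ¬ Collinear ℝ ({a, b, c} : Set (ℝ × ℝ))) →
    ∃ f : V → ℝ × ℝ, IsDrawing G f ∧ f '' S = P

theorem result : ∀ γ : ℝ, 0 < γ →
    ∃ (V : Type) (_ : Fintype V) (G : SimpleGraph V) (S : Finset V),
      (∃ f, IsDrawing G f) ∧ S.Nonempty ∧ IsMostlyFree G S ∧
      (∀ f, IsDrawing G f → ∀ T ⊆ S, Collinear ℝ (f '' T) → (T.card : ℝ) < γ * S.card) ∧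
      ∀ T ⊆ S, IsFree G T → (T.card : ℝ) < γ * S.card :=
  MFS.hedge MFS.core_holds

end Pool.Agent.Results.MP_6c0025_co.NoLinearFreeSubset
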